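import Pool.Agent.Helper31.LW.Goals
import Pool.Agent.Helper84.LQ.MV

/-!
# LW-VPOS (MP_6fb600_gt)
-/

open MeasureTheory Set
open scoped ENNReal Matrix
open Pool.Agent.Helper47.AQ

noncomputable section

namespace Pool.Agent.Helper78.LW

open Pool.Agent.Helper31.LQ Pool.Agent.Helper31.LW

/-- `lin Y` as a linear map. -/
def linL {n d : ℕ} (Y : Fin n → Fin d → ℝ) : (Fin n → ℝ) →ₗ[ℝ] (Fin d → ℝ) where
  toFun := lin Y
  map_add' x y := by
    funext c
    simp only [lin, Pi.add_apply, add_mul, Finset.sum_add_distrib]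
  map_smul' r x := by
    funext c
    simp only [lin, Pi.smul_apply, smul_eq_mul, RingHom.id_apply, Finset.mul_sum, mul_assoc]

theorem lin_ch_append {d m : ℕ} (Z : Fin m → Fin d → ℝ) (t : Fin d → ℝ) :
    lin (ch Z) (Fin.append t 0) = t := by
  funext c
  simp only [lin, ch, Fin.sum_univ_add, Fin.append_left, Fin.append_right, Pi.zero_apply, zero_mul,
    Finset.sum_const_zero, add_zero]
  rw [Finset.sum_eq_single c]
  · simp
  · intro b _ hb
    rw [Pi.single_eq_of_ne (Ne.symm hb), mul_zero]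
  · intro h
    exact absurd (Finset.mem_univ c) h

theorem surj_ch {d m : ℕ} (Z : Fin m → Fin d → ℝ) : Function.Surjective (linL (ch Z)) :=
  fun t => ⟨Fin.append t 0, lin_ch_append Z t⟩

theorem cont_lin {n d : ℕ} (Y : Fin n → Fin d → ℝ) : Continuous (lin Y) :=
  LinearMap.continuous_of_finiteDimensional (linL Y)

theorem vol_ch {d m : ℕ} (Z : Fin m → Fin d → ℝ) (K : Set (Fin (d + m) → ℝ)) (hK : IsBody K) :
    0 < volume (lin (ch Z) '' K) ∧ volume (lin (ch Z) '' K) < ⊤ := by
  refine ⟨?_, (hK.comp.image (cont_lin (ch Z))).measure_lt_top⟩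
  have ho : IsOpenMap (linL (ch Z)) :=
    LinearMap.isOpenMap_of_finiteDimensional _ (surj_ch Z)
  have h1 : IsOpen (lin (ch Z) '' interior K) := ho _ isOpen_interior
  have h2 : (lin (ch Z) '' interior K).Nonempty := hK.int.image _
  exact lt_of_lt_of_le (h1.measure_pos volume h2) (measure_mono (image_mono interior_subset))

theorem meas_top {e m : ℕ} : Measurable fun p : (Fin m → Fin e → ℝ) × (Fin m → ℝ) =>
    (Pool.Agent.Helper31.LW.top p.2 p.1 : Fin m → Fin (e + 1) → ℝ) := by
  refine measurable_pi_iff.2 fun l => measurable_pi_iff.2 fun c => ?_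
  refine Fin.cases ?_ (fun c => ?_) c
  · simp only [Pool.Agent.Helper31.LW.top, Fin.cons_zero]
    exact (measurable_pi_apply l).comp measurable_snd
  · simp only [Pool.Agent.Helper31.LW.top, Fin.cons_succ]
    exact (measurable_pi_apply c).comp ((measurable_pi_apply l).comp measurable_fst)

theorem meas_ch {d m : ℕ} : Measurable fun Z : Fin m → Fin d → ℝ =>
    (ch Z : Fin (d + m) → Fin d → ℝ) := by
  refine measurable_pi_iff.2 fun l => ?_
  refine Fin.addCases (fun a => ?_) (fun a => ?_) l
  · simp only [ch, Fin.append_left]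
    exact measurable_const
  · simp only [ch, Fin.append_right]
    exact measurable_pi_apply a

theorem gVPOS : Pool.Agent.Helper31.LW.VPOS := by
  intro e m
  refine ⟨?_, meas_top, meas_ch, ?_⟩
  · intro K hK Z b
    obtain ⟨h1, h2⟩ := vol_ch (Pool.Agent.Helper31.LW.top b Z) K hK
    exact ⟨ENNReal.toReal_pos h1.ne' h2.ne, (ENNReal.ofReal_toReal h2.ne).symm⟩
  · intro K hK
    have h := Pool.Agent.Helper84.LQ.gMV (e + 1 + m) (e + 1) K hK
    exact ((h.comp meas_ch).comp meas_top).ennreal_toReal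

end Pool.Agent.Helper78.LW
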